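import Pool.Agent.Helper74.NM.St

/-!
# NM module DCC (MP_26f0da_lc): the letter `k (c r)`
-/

set_option autoImplicit false

namespace Pool.Agent.Helper22.NM

open Pool.Agent.Helper74 Pool.Agent.Helper74.NM

private abbrev rest {α W : Type} (rk : W → Bool) (l : α → List (W × List W)) (w : List α) :
    List (Lt W) := w.flatMap fun a => blk rk (l a)

private lemma N_ne {W : Type} (rk : W → Bool) (i : Bool) (s : List W) : N rk i s ≠ [] := by
  simp [N]

private lemma cells_cons {W : Type} (rk : W → Bool) (X : W) (s : List W) :
    cells rk (X :: s) = .o (.s X) :: .o (.c (rk X)) :: cells rk s := by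
  simp [cells]

private lemma cells_eq_nil {W : Type} (rk : W → Bool) (s : List W) (h : cells rk s = []) :
    s = [] := by
  cases s with
  | nil => rfl
  | cons X s => rw [cells_cons] at h; exact absurd h (by simp)

private lemma zs_split {W : Type} (rk : W → Bool) (g : W × List W) (i : Bool) (s : List W)
    (τ : List (Lt W)) (h : N rk i s = (Zs rk g).map Lt.o ++ τ) :
    i = false ∧ ∃ s', s = g.1 :: s' ∧ τ = cells rk s' := by
  cases s with
  | nil =>
    exfalso
    simp [N, Zs, cells] at h
  | cons X s =>
    simp only [N, Zs, cells_cons, List.map_cons, List.map_nil, List.cons_append, List.nil_append,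
      List.cons.injEq, Lt.o.injEq, Zt.b.injEq, Zt.s.injEq, Zt.c.injEq] at h
    obtain ⟨h1, h2, -, h4⟩ := h
    exact ⟨h1, s, by rw [h2], h4.symm⟩

/-- from the condition on the last symbol, `s = [g.1]`: the right hand side of the rule is empty -/
private lemma g2_nil {W : Type} (rk : W → Bool) (r : Bool) (g : W × List W) (hR : Rc rk g)
    (hc : ∀ z ∈ (g.1 :: ([] : List W)).getLast?, r = true ∧ rk z = false) : g.2 = [] := by
  have h1 : rk g.1 = false := (hc g.1 (by simp)).2
  by_contra hne
  have h2 : g.2.getLast? = some (g.2.getLast hne) := List.getLast?_eq_some_getLast hne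
  have h3 := (hR (g.2.getLast hne) (by rw [h2]; rfl)).1
  rw [h1] at h3
  exact absurd h3 (by simp)

private lemma one {α W : Type} (rk : W → Bool) (l : α → List (W × List W)) (hGA : StGA)
    (hSTP : StSTP) (hDAB : StDAB) (hDBD : StDBD) (hl : ∀ a, ∀ g ∈ l a, Rc rk g) (r : Bool)
    (w : List α)
    (h2 : ∀ s : List W, (∀ z ∈ s.getLast?, r = true ∧ rk z = false) →
      Dead (P rk) op (.k (.c r)) (rest rk l w) (cells rk s)) :
    ∀ (m : List (W × List W)) (i : Bool) (s : List W), (∀ g ∈ m, Rc rk g) →
      (∀ z ∈ s.getLast?, r = true ∧ rk z = false) →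
      Dead (P rk) op (.k (.c r)) (m.flatMap (gd rk) ++ .k (.b true) :: rest rk l w)
        (N rk i s) := by
  intro m
  induction m with
  | nil =>
    intro i s _ hs
    rw [List.flatMap_nil, List.nil_append, dead_cons]
    refine ⟨fun h => absurd h (N_ne rk i s), fun h => False.elim h, ?_⟩
    intro x σ' hσ _
    have h3 : σ' = cells rk s := by
      simp only [N, List.cons.injEq] at hσ
      exact hσ.2.symm
    rw [h3]
    exact h2 s hs
  | cons g m ih =>
    intro i s hm hs
    have hRg : Rc rk g := hm g (by simp)
    have hRm : ∀ g ∈ m, Rc rk g := fun g' hg' => hm g' (List.mem_cons_of_mem _ hg')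
    rw [List.flatMap_cons, List.append_assoc, dead_append]
    constructor
    · rw [gd, dead_append]
      refine ⟨(hDAB W rk _ g _).1 (fun h => absurd h (N_ne rk i s)), ?_⟩
      intro τ hτ
      apply (hDAB W rk _ g _).2
      rcases (hGA W rk g (N rk i s)).2.2 (clean_N rk i s) τ hτ with h | h
      · intro h3
        rw [h] at h3
        exact absurd h3 (by simp)
      · intro h3 z hz hP
        obtain ⟨-, s', hs', hτs⟩ := zs_split rk g i s τ h
        rw [h3] at hτs
        have h4 := cells_eq_nil rk s' hτs.symm
        rw [hs', h4] at hs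
        have h5 := g2_nil rk r g hRg hs
        have h6 : Us rk g = [.b true] := by
          rw [Us, h5]; rfl
        rw [h6] at hz
        simp only [List.getLast?_singleton, Option.some.injEq] at hz
        have h7 : z = .c r := hP
        rw [← hz] at h7
        exact absurd h7 (by simp)
    · intro τ hτ
      rcases (hSTP W rk g hRg).1 i s τ hτ with h | ⟨hi, s', hs', h⟩ | h
      · rw [h]
        exact ih i s hRm hs
      · rw [h]
        apply ih true (g.2 ++ s') hRm
        rw [hs'] at hs
        cases s' with
        | nil =>
          have h5 := g2_nil rk r g hRg hs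
          rw [h5]
          intro z hz
          simp at hz
        | cons X t =>
          intro z hz
          apply hs z
          rw [List.getLast?_append] at hz
          rw [List.getLast?_cons_cons]
          have h6 : (X :: t).getLast? = some ((X :: t).getLast (by simp)) :=
            List.getLast?_eq_some_getLast (by simp)
          rw [h6] at hz ⊢
          exact hz
      · exact (hDBD α W rk l hl _ w).1 m τ hRm h

private lemma two {α W : Type} (rk : W → Bool) (l : α → List (W × List W)) (r : Bool) (a : α)
    (w : List α)
    (h1 : ∀ (i : Bool) (s : List W), (∀ z ∈ s.getLast?, r = true ∧ rk z = false) →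
      Dead (P rk) op (.k (.c r)) ((l a).flatMap (gd rk) ++ .k (.b true) :: rest rk l w)
        (N rk i s))
    (s : List W) (hs : ∀ z ∈ s.getLast?, r = true ∧ rk z = false) :
    Dead (P rk) op (.k (.c r)) (rest rk l (a :: w)) (cells rk s) := by
  have e : rest rk l (a :: w)
      = .o (.b false) :: ((l a).flatMap (gd rk) ++ .k (.b true) :: rest rk l w) := by
    show (a :: w).flatMap (fun a => blk rk (l a)) = _
    rw [List.flatMap_cons, blk]
    simp only [List.cons_append, List.append_assoc, List.nil_append]
  rw [e, dead_cons]
  refine ⟨?_, ?_, ?_⟩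
  · intro _ h
    have h3 : (Zt.b false : Zt W) = .c r := h
    exact absurd h3 (by simp)
  · intro _
    exact h1 false s hs
  · intro x σ' _ hP
    exact absurd hP (not_p_o rk x _)

/-- NM module DCC -/
theorem hDCC (hGA : StGA) (hSTP : StSTP) (hDAB : StDAB) (hDBD : StDBD) : StDCC := by
  intro α W rk l hl r w
  induction w with
  | nil =>
    have h2 : ∀ s : List W, (∀ z ∈ s.getLast?, r = true ∧ rk z = false) →
        Dead (P rk) op (.k (.c r)) (rest rk l []) (cells rk s) := fun s _ => dead_nil _ _ _ _
    refine ⟨?_, h2⟩
    intro m i s hm hs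
    exact one rk l hGA hSTP hDAB hDBD hl r [] h2 m i s hm hs
  | cons a w ih =>
    have h2 : ∀ s : List W, (∀ z ∈ s.getLast?, r = true ∧ rk z = false) →
        Dead (P rk) op (.k (.c r)) (rest rk l (a :: w)) (cells rk s) := by
      intro s hs
      exact two rk l r a w (fun i s hs => ih.1 (l a) i s (hl a) hs) s hs
    refine ⟨?_, h2⟩
    intro m i s hm hs
    exact one rk l hGA hSTP hDAB hDBD hl r (a :: w) h2 m i s hm hs

end Pool.Agent.Helper22.NM
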